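import Pool.Agent.H23.LB.Targets

/-!
# Module PO of the board gla_modules (MP_52e316_nt): the polar terms vanish
-/

set_option autoImplicit false

open NumberField NumberField.InfinitePlace NumberField.Units
  NumberField.Units.dirichletUnitTheorem MeasureTheory Set Filter Complex
open scoped nonZeroDivisors ENNReal

namespace Pool.Agent.H3.GLA

open Pool.Agent.H25.HK Pool.Agent.H28.RC Pool.Agent.H23.LB

section

variable {K : Type} [Field K] [NumberField K]

theorem po_ph (x : K) : ph (0 : InfinitePlace K → ℝ) x = 1 := by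
  simp [ph]

omit [NumberField K] in
theorem po_sg (x : K) : sg K (∅ : Finset (RP K)) x = 1 := by
  simp [sg]

theorem po_ec (z : logSpace K) : ec K (0 : InfinitePlace K → ℝ) z = 1 := by
  simp [ec, pr]

open scoped Classical in
/-- the trivial character -/
noncomputable def po_triv (f : Ideal (𝓞 K)) : HC K f where
  ψ I := if I ≠ ⊥ ∧ I ⊔ f = ⊤ then 1 else 0
  S := ∅
  ν := 0
  map_top := by simp
  map_mul I J := by
    by_cases hI : I = ⊥
    · simp [hI]
    by_cases hJ : J = ⊥
    · simp [hJ]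
    have h0 : I * J ≠ ⊥ := mul_ne_zero hI hJ
    have h1 : (I * J) ⊔ f = ⊤ ↔ I ⊔ f = ⊤ ∧ J ⊔ f = ⊤ := by
      rw [← Ideal.isCoprime_iff_sup_eq, ← Ideal.isCoprime_iff_sup_eq,
        ← Ideal.isCoprime_iff_sup_eq]
      exact IsCoprime.mul_left_iff
    by_cases h2 : I ⊔ f = ⊤ <;> by_cases h3 : J ⊔ f = ⊤ <;> simp [hI, hJ, h0, h1, h2, h3]
  map_bot := by simp
  norm_one I h1 h2 := by simp [h1, h2]
  eq_zero I h := by simp [h]
  princ a h1 h2 := by
    have h3 : Ideal.span {a} ⊔ f = ⊤ := by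
      rw [Ideal.eq_top_iff_one]
      have h4 : a ∈ Ideal.span {a} ⊔ f :=
        Ideal.mem_sup_left (Ideal.mem_span_singleton_self a)
      have h5 : a - 1 ∈ Ideal.span {a} ⊔ f := Ideal.mem_sup_right h2
      have h6 := Ideal.sub_mem _ h4 h5
      rwa [sub_sub_cancel] at h6
    have h4 : Ideal.span {a} ≠ (⊥ : Ideal (𝓞 K)) := by
      rwa [Ne, Ideal.span_singleton_eq_bot]
    rw [if_pos ⟨h4, h3⟩, po_sg, po_ph, mul_one]
  norm_zero := by simp

open scoped Classical in
theorem po_cf (f : Ideal (𝓞 K)) (χ : HC K f) (M : FI K) (r : K) :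
    H23.LB.cf χ M r * (starRingEnd ℂ) (H23.LB.cf (po_triv f) M r) = H23.LB.cf χ M r := by
  unfold H23.LB.cf
  generalize (if r = 0 then z1 K f M else r) = x
  have h1 : sg K (po_triv f).S x = 1 := po_sg x
  have h2 : ph (po_triv f).ν x = 1 := po_ph x
  have h3 : (po_triv f).ψ (idl K M x) =
    if idl K M x ≠ ⊥ ∧ idl K M x ⊔ f = ⊤ then 1 else 0 := rfl
  rw [h1, h2, h3]
  by_cases h4 : idl K M x ≠ ⊥ ∧ idl K M x ⊔ f = ⊤
  · simp [h4]
  · have h5 : χ.ψ (idl K M x) = 0 := by
      by_cases h6 : idl K M x = ⊥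
      · rw [h6, χ.map_bot]
      · exact χ.eq_zero _ fun h7 => h4 ⟨h6, h7⟩
    simp [h4, h5]

end

open scoped Classical in
theorem pf_PO (hOR : T_OR) (hCF : T_CF) : T_PO' := by
  intro K _ _ f hf D χ hχ
  by_cases hS : χ.S = ∅
  · have hne : χ ≠ po_triv f := by
      rintro h
      obtain ⟨I, h1, h2⟩ := hχ
      rw [h] at h1 h2
      have h3 : (po_triv f).ψ I = if I ≠ ⊥ ∧ I ⊔ f = ⊤ then 1 else 0 := rfl
      rw [h3] at h1 h2
      split_ifs at h1 h2 with h4
      · exact h2 rfl
      · exact h1 rfl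
    have h0 := (hOR K f hf D χ (po_triv f) hS).1 hne
    have h1 : ∑ c, ∑ r ∈ D.X c, H23.LB.cf χ (D.M c) r * (∫ z in Fd K, ec K χ.ν z) = 0 := by
      rw [← h0]
      refine Finset.sum_congr rfl fun c _ => Finset.sum_congr rfl fun r _ => ?_
      rw [po_cf]
      congr 2
      funext z
      have h2 : ec K (po_triv f).ν z = 1 := po_ec z
      rw [h2, map_one, mul_one]
    have h2 : ∑ c, ∑ r ∈ D.X c, H23.LB.cf χ (D.M c) r * ((∫ z in Fd K, ec K χ.ν z) * d1 K χ.S) =
        0 := by
      rw [← h1]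
      refine Finset.sum_congr rfl fun c _ => Finset.sum_congr rfl fun r _ => ?_
      have h3 : d1 K χ.S = 1 := if_pos hS
      rw [h3, mul_one]
    refine ⟨?_, h2⟩
    by_cases hft : f = ⊤
    · rw [← h1]
      refine Finset.sum_congr rfl fun c _ => Finset.sum_congr rfl fun r hr => ?_
      have h3 : d0 K χ.S f (D.M c) r = 1 := by
        refine if_pos ⟨hS, ?_⟩
        have h4 : (f : FI K) * D.M c = D.M c := by
          have h5 : (f : FI K) = 1 := by rw [hft, FractionalIdeal.coeIdeal_top]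
          rw [h5, one_mul]
        have h5 : r ∈ D.M c := (D.rep c).1 r hr
        rwa [← h4] at h5
      rw [h3, mul_one]
    · refine Finset.sum_eq_zero fun c _ => Finset.sum_eq_zero fun r _ => ?_
      by_cases hr : r ∈ (f : FI K) * D.M c
      · obtain ⟨-, -, -, -, h4, -, -, h5, -⟩ := hCF K f χ (D.M c) hf (D.reps.1 c)
        have h6 := h4 0 (FractionalIdeal.zero_mem _) r hr
        rw [zero_add, h5 hft] at h6
        rw [h6, zero_mul]
      · have h3 : d0 K χ.S f (D.M c) r = 0 := if_neg fun h => hr h.2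
        rw [h3, mul_zero, mul_zero]
  · have h3 : d1 K χ.S = 0 := if_neg hS
    have h4 : ∀ c r, d0 K χ.S f (D.M c) r = 0 := fun c r => if_neg fun h => hS h.1
    simp [h3, h4]

end Pool.Agent.H3.GLA
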