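import Pool.Agent.H23.LB.Targets
import Pool.Agent.H3.HK.GA
import Pool.Agent.H3.HK.GM
import Pool.Agent.H3.HK.LB
import Pool.Agent.H3.HK.TH
import Pool.Agent.H16.HK.GS
import Pool.Agent.H16.HK.PO
import Pool.Agent.H16.HK.PS
import Pool.Agent.H12.RC.GS
import Pool.Agent.H19.RC.TH
import Pool.Agent.H28.RC.Basic
import Pool.Agent.H33.RC.F1
import Pool.Agent.H42.RC.GA
import Pool.Agent.H68.RC.GM
import Pool.Agent.H68.RC.LB
import Pool.Agent.H68.RC.PO

/-!
# Module TZ of the board gla_modules (MP_52e316_nt): the functional equation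
of the theta series with a complex parameter
-/

set_option autoImplicit false

open NumberField NumberField.InfinitePlace NumberField.Units
  NumberField.Units.dirichletUnitTheorem MeasureTheory Set Filter Complex
open scoped nonZeroDivisors ENNReal Topology

namespace Pool.Agent.H3.GLA

open Pool.Agent.H25.HK Pool.Agent.H28.RC Pool.Agent.H23.LB

theorem tz_TH0 : T_TH :=
  Pool.Agent.H3.HK.th_fe (Pool.Agent.H16.HK.po Pool.Agent.H16.HK.ps Pool.Agent.H3.HK.ga
    Pool.Agent.H16.HK.gs) Pool.Agent.H3.HK.gm Pool.Agent.H3.HK.lb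

theorem tz_SM : T_SMc := pf_SM tz_TH0

theorem tz_TH : T_THc :=
  Pool.Agent.H19.RC.pf_TH (Pool.Agent.H68.RC.pf_PO Pool.Agent.H16.HK.ps
    (Pool.Agent.H42.RC.pf_GA Pool.Agent.H33.RC.pf_F1) Pool.Agent.H12.RC.pf_GS)
    (Pool.Agent.H68.RC.pf_GM Pool.Agent.H3.HK.gm)
    (Pool.Agent.H68.RC.pf_LB Pool.Agent.H3.HK.lb) tz_SM

section

variable {K : Type} [Field K] [NumberField K]

theorem tz_qK (y : InfinitePlace K → ℝ) (t : ℝ) (x : K) :
    qK K (fun v => y v + t) x = Real.exp t * qK K y x := by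
  unfold qK
  rw [Finset.mul_sum]
  refine Finset.sum_congr rfl fun v _ => ?_
  rw [Real.exp_add]
  ring

omit [NumberField K] in
theorem tz_ws (S : Finset (RP K)) (y : InfinitePlace K → ℝ) (t : ℝ) (x : K) :
    ws K S (fun v => y v + t) x = Real.exp (t * S.card / 2) * ws K S y x := by
  unfold ws
  have h : ∀ v : RP K, Real.exp ((y v.1 + t) / 2) * re v x =
      Real.exp (t / 2) * (Real.exp (y v.1 / 2) * re v x) := by
    intro v
    rw [add_div, Real.exp_add]
    ring
  simp only [h]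
  rw [Finset.prod_mul_distrib, Finset.prod_const, ← Real.exp_nat_mul]
  congr 2
  ring

/-- at real parameters -/
theorem tz_real (S : Finset (RP K)) (M : FI K) (c : K → ℂ) (t : ℝ)
    (y : InfinitePlace K → ℝ) :
    tz K S M c (t : ℂ) y = tf K S M c (fun v => y v + t) := by
  unfold tz tf
  refine tsum_congr fun x => ?_
  rw [tz_qK, tz_ws]
  push_cast
  ring

theorem tz_norm (ζ : ℂ) (q : ℝ) :
    ‖cexp (-Real.pi * (cexp ζ * ((q : ℝ) : ℂ)))‖ =
      Real.exp (-Real.pi * (Real.exp ζ.re * Real.cos ζ.im * q)) := by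
  rw [Complex.norm_exp]
  congr 1
  have h : (-(Real.pi : ℂ) * (cexp ζ * ((q : ℝ) : ℂ))) =
      ((-Real.pi * q : ℝ) : ℂ) * cexp ζ := by
    push_cast
    ring
  rw [h, Complex.re_ofReal_mul, Complex.exp_re]
  ring

theorem tz_qK_nonneg (y : InfinitePlace K → ℝ) (x : K) : 0 ≤ qK K y x := by
  unfold qK
  positivity

/-- the theta series is holomorphic in the strip -/
theorem tz_diff (S : Finset (RP K)) (M : FI K) (hM : M ≠ 0) (c : K → ℂ) (B : ℝ)
    (hc : ∀ x ∈ M, ‖c x‖ ≤ B) (y : InfinitePlace K → ℝ) :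
    DifferentiableOn ℂ (fun ζ => tz K S M c ζ y) {ζ : ℂ | |ζ.im| < Real.pi / 2} := by
  intro ζ0 h0
  have h0' : |ζ0.im| < Real.pi / 2 := h0
  obtain ⟨φ, h1, h2⟩ := exists_between h0'
  have hφ0 : 0 ≤ φ := (abs_nonneg _).trans h1.le
  set R : ℝ := |ζ0.re| + 1 with hR
  set U : Set ℂ := {ζ : ℂ | |ζ.re| < R ∧ |ζ.im| < φ} with hU
  have hUo : IsOpen U := by
    refine IsOpen.inter ?_ ?_
    · exact isOpen_lt (Complex.continuous_re.abs) continuous_const
    · exact isOpen_lt (Complex.continuous_im.abs) continuous_const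
  have hcos : 0 < Real.cos φ := Real.cos_pos_of_mem_Ioo ⟨by linarith [Real.pi_pos], h2⟩
  set δ : ℝ := Real.exp (-R) * Real.cos φ with hδ
  have hδ0 : 0 < δ := mul_pos (Real.exp_pos _) hcos
  have hB0 : 0 ≤ B := (norm_nonneg _).trans (hc 0 (FractionalIdeal.zero_mem _))
  have hsum := (tz_SM K S M hM (fun v => y v + Real.log δ)).1
  have hu : Summable fun x : {x : K // x ∈ M} =>
      B * (Real.exp (R * S.card / 2) * (Real.exp (Real.log δ * S.card / 2))⁻¹) *
        (|ws K S (fun v => y v + Real.log δ) x| *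
          Real.exp (-Real.pi * qK K (fun v => y v + Real.log δ) x)) := hsum.mul_left _
  have hd : DifferentiableOn ℂ (fun ζ => tz K S M c ζ y) U := by
    refine differentiableOn_tsum_of_summable_norm hu ?_ hUo ?_
    · intro x
      refine Differentiable.differentiableOn ?_
      fun_prop
    · intro x ζ hζ
      obtain ⟨h3, h4⟩ := hζ
      rw [norm_mul, norm_mul, norm_mul, tz_norm, tz_qK, tz_ws, Real.exp_log hδ0]
      have h5 : ‖cexp (ζ * S.card / 2)‖ ≤ Real.exp (R * S.card / 2) := by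
        rw [Complex.norm_exp]
        have h6 : (ζ * S.card / 2 : ℂ).re = ζ.re * S.card / 2 := by
          have h7 : (ζ * S.card / 2 : ℂ) = ζ * ((S.card / 2 : ℝ) : ℂ) := by
            push_cast
            ring
          rw [h7, Complex.re_mul_ofReal]
          ring
        rw [h6]
        refine Real.exp_le_exp.mpr ?_
        have h8 : ζ.re ≤ R := (le_abs_self _).trans h3.le
        have h9 : (0 : ℝ) ≤ S.card := Nat.cast_nonneg _
        nlinarith [mul_le_mul_of_nonneg_right h8 h9]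
      have h6 : Real.exp (-Real.pi * (Real.exp ζ.re * Real.cos ζ.im * qK K y x)) ≤
          Real.exp (-Real.pi * (δ * qK K y x)) := by
        refine Real.exp_le_exp.mpr ?_
        have h7 : δ ≤ Real.exp ζ.re * Real.cos ζ.im := by
          refine mul_le_mul ?_ ?_ hcos.le (Real.exp_pos _).le
          · refine Real.exp_le_exp.mpr ?_
            have := neg_abs_le ζ.re
            linarith
          · rw [← Real.cos_abs ζ.im]
            exact Real.cos_le_cos_of_nonneg_of_le_pi (abs_nonneg _)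
              (by linarith [Real.pi_pos]) h4.le
        have h8 := mul_le_mul_of_nonneg_right h7 (tz_qK_nonneg y (x : K))
        have h9 := mul_le_mul_of_nonneg_left h8 Real.pi_pos.le
        linarith
      have h7 : ‖((ws K S y x : ℝ) : ℂ)‖ = |ws K S y x| := by
        rw [Complex.norm_real, Real.norm_eq_abs]
      rw [h7, abs_mul, abs_of_pos (Real.exp_pos _)]
      have h8 : B * (Real.exp (R * S.card / 2) * (Real.exp (Real.log δ * S.card / 2))⁻¹) *
          (Real.exp (Real.log δ * S.card / 2) * |ws K S y x| *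
            Real.exp (-Real.pi * (δ * qK K y x))) =
          B * |ws K S y x| * (Real.exp (R * S.card / 2) *
            Real.exp (-Real.pi * (δ * qK K y x))) := by
        have h9 : Real.exp (Real.log δ * S.card / 2) ≠ 0 := (Real.exp_pos _).ne'
        field_simp
      rw [h8]
      refine mul_le_mul (mul_le_mul_of_nonneg_right (hc x x.2) (abs_nonneg _)) ?_
        (by positivity) (by positivity)
      exact mul_le_mul h5 h6 (Real.exp_pos _).le (Real.exp_pos _).le
  have hmem : ζ0 ∈ U := ⟨by rw [hR]; linarith, h1⟩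
  exact ((hd ζ0 hmem).differentiableAt (hUo.mem_nhds hmem)).differentiableWithinAt

omit [NumberField K] in
theorem tz_bd (f : Ideal (𝓞 K)) (M : FI K) (X : Finset K) (c : K → ℂ) (hX : Rep K f M X)
    (hc : ∀ x ∈ M, ∀ l ∈ (f : FI K) * M, c (x + l) = c x) (x : K) (hx : x ∈ M) :
    ‖c x‖ ≤ ∑ r ∈ X, ‖c r‖ := by
  obtain ⟨r, ⟨h1, h2⟩, -⟩ := hX.2 x hx
  have h3 := hc r (hX.1 r h1) _ h2
  rw [add_sub_cancel] at h3
  rw [h3]
  exact Finset.single_le_sum (f := fun r => ‖c r‖) (fun i _ => norm_nonneg _) h1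

theorem tz_bd' (X : Finset K) (c : K → ℂ) (x : K) :
    ‖ft K X c x‖ ≤ ∑ r ∈ X, ‖c r‖ := by
  unfold ft
  refine (norm_sum_le _ _).trans (Finset.sum_le_sum fun r _ => ?_)
  rw [norm_mul]
  have h1 : ‖cexp (2 * Real.pi * I * ((Algebra.trace ℚ K (r * x) : ℚ) : ℂ))‖ = 1 := by
    have h2 : (2 * Real.pi * I * ((Algebra.trace ℚ K (r * x) : ℚ) : ℂ)) =
        ((2 * Real.pi * ((Algebra.trace ℚ K (r * x) : ℚ) : ℝ) : ℝ) : ℂ) * I := by
      push_cast
      ring
    rw [h2, Complex.norm_exp_ofReal_mul_I]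
  rw [h1, mul_one]

end

theorem pf_TZ : T_TZ := by
  intro K _ _ S f M X c hf hM hX hc y ζ hζ
  set U : Set ℂ := {ζ : ℂ | |ζ.im| < Real.pi / 2} with hU
  have hUo : IsOpen U := isOpen_lt (Complex.continuous_im.abs) continuous_const
  have hUc : Convex ℝ U := by
    have h1 : U = Complex.im ⁻¹' (Ioo (-(Real.pi / 2)) (Real.pi / 2)) := by
      ext z
      exact (abs_lt (a := z.im) (b := Real.pi / 2))
    rw [h1]
    exact (convex_Ioo _ _).is_linear_preimage ⟨fun _ _ => rfl, fun c z => by simp⟩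
  have hN : du K ((f : FI K) * M) ≠ 0 := by
    refine FractionalIdeal.dual_ne_zero ℤ ℚ (mul_ne_zero ?_ hM)
    rwa [Ne, FractionalIdeal.coeIdeal_eq_zero]
  have hF1 : DifferentiableOn ℂ (fun ζ => tz K S M c ζ y) U :=
    tz_diff S M hM c _ (tz_bd f M X c hX hc) y
  have hF2 : DifferentiableOn ℂ (fun ζ => tz K S (du K ((f : FI K) * M)) (ft K X c) (-ζ) (-y))
      U := by
    have h1 := tz_diff S _ hN (ft K X c) _ (fun x _ => tz_bd' X c x) (-y)
    refine h1.comp (f := fun ζ : ℂ => -ζ) differentiable_neg.differentiableOn ?_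
    intro z hz
    have h2 : |z.im| < Real.pi / 2 := hz
    show |(-z).im| < Real.pi / 2
    rwa [Complex.neg_im, abs_neg]
  have hG : DifferentiableOn ℂ (fun ζ => ((Real.exp (-(∑ v, (v.mult : ℝ) * y v) / 2) *
      (cv K ((f : FI K) * M))⁻¹ : ℝ) : ℂ) * cexp (-(Module.finrank ℚ K * ζ / 2)) *
      (-I) ^ S.card * tz K S (du K ((f : FI K) * M)) (ft K X c) (-ζ) (-y)) U := by
    refine DifferentiableOn.mul ?_ hF2
    refine Differentiable.differentiableOn ?_
    fun_prop
  have hreal : ∀ t : ℝ, tz K S M c (t : ℂ) y =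
      ((Real.exp (-(∑ v, (v.mult : ℝ) * y v) / 2) *
      (cv K ((f : FI K) * M))⁻¹ : ℝ) : ℂ) * cexp (-(Module.finrank ℚ K * (t : ℂ) / 2)) *
      (-I) ^ S.card * tz K S (du K ((f : FI K) * M)) (ft K X c) (-(t : ℂ)) (-y) := by
    intro t
    have h1 := tz_TH K S f M X c hf hM hX hc (fun v => y v + t)
    have h2 : (-fun v : InfinitePlace K => y v + t) = fun v => (-y) v + -t := by
      funext v
      simp only [Pi.neg_apply]
      ring
    have h3 : (∑ v : InfinitePlace K, (v.mult : ℝ) * (y v + t)) =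
        (∑ v : InfinitePlace K, (v.mult : ℝ) * y v) + Module.finrank ℚ K * t := by
      simp only [mul_add]
      rw [Finset.sum_add_distrib, ← Finset.sum_mul]
      congr 2
      exact_mod_cast InfinitePlace.sum_mult_eq (K := K)
    rw [h2, ← tz_real, ← tz_real, h3] at h1
    rw [h1]
    have h4 : Real.exp (-((∑ v : InfinitePlace K, (v.mult : ℝ) * y v) +
        Module.finrank ℚ K * t) / 2) = Real.exp (-(∑ v : InfinitePlace K,
        (v.mult : ℝ) * y v) / 2) * Real.exp (-(Module.finrank ℚ K * t / 2)) := by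
      rw [← Real.exp_add]
      congr 1
      ring
    rw [h4]
    push_cast
    ring
  have h0 : (0 : ℂ) ∈ U := by
    show |(0 : ℂ).im| < Real.pi / 2
    simpa using Real.pi_pos
  have hfreq : ∃ᶠ z in 𝓝[≠] (0 : ℂ), tz K S M c z y =
      ((Real.exp (-(∑ v, (v.mult : ℝ) * y v) / 2) *
      (cv K ((f : FI K) * M))⁻¹ : ℝ) : ℂ) * cexp (-(Module.finrank ℚ K * z / 2)) *
      (-I) ^ S.card * tz K S (du K ((f : FI K) * M)) (ft K X c) (-z) (-y) := by
    have h1 : Tendsto (fun t : ℝ => (t : ℂ)) (𝓝[≠] 0) (𝓝[≠] 0) := by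
      refine tendsto_nhdsWithin_iff.mpr ⟨?_, ?_⟩
      · have h2 : Tendsto (fun t : ℝ => (t : ℂ)) (𝓝 0) (𝓝 ((0 : ℝ) : ℂ)) :=
          Complex.continuous_ofReal.tendsto 0
        rw [Complex.ofReal_zero] at h2
        exact h2.mono_left nhdsWithin_le_nhds
      · filter_upwards [self_mem_nhdsWithin] with t ht
        simpa using ht
    refine h1.frequently ?_
    exact Eventually.frequently (Eventually.of_forall hreal)
  exact (hF1.analyticOnNhd hUo).eqOn_of_preconnected_of_frequently_eq (hG.analyticOnNhd hUo)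
    hUc.isPreconnected h0 hfreq hζ

end Pool.Agent.H3.GLA
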